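import Pool.Agent.H90.Ex9

/-!
# Weak geodesics between Kähler metrics need not be strictly positive

On the flat torus `X = ℂ / (ℤ + iℤ)` with `ω = dd^c |ζ|^2` there are two Kähler forms in the class
of `ω` such that the weak geodesic joining them over any annulus `{a < |z| < b}` (which exists and is
unique) fails to be strictly positive on every slice `X × {z}` with `|z|^2 = ab`.
-/

open Complex Real

namespace Pool.Agent.Results.MP_8d5978_gt.NotStrictlyPositive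

open Pool.Agent.H90

theorem result : ∃ φ₁ φ₂ : ℂ → ℝ, KahlerPotential φ₁ ∧ KahlerPotential φ₂ ∧
    ∀ a b : ℝ, 0 < a → a < b → ∃ φ : ℂ × ℂ → ℝ, WeakGeodesic a b φ₁ φ₂ φ ∧
      (∀ φ' : ℂ × ℂ → ℝ, WeakGeodesic a b φ₁ φ₂ φ' → ∀ p ∈ Cl a b, φ' p = φ p) ∧
      ∀ z : ℂ, ‖z‖ ^ 2 = a * b → (a < ‖z‖ ∧ ‖z‖ < b) ∧ ¬ StrictlyPositive fun ζ => φ (ζ, z) := by
  refine ⟨_, _, kahler_left, kahler_right, fun a b ha hab => ?_⟩
  obtain ⟨φ, hφ⟩ := exists_weakGeodesic ha hab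
  refine ⟨φ, hφ, fun φ' hφ' p hp => le_antisymm (hφ.le (ha.trans hab) hφ' p hp)
    (hφ'.le (ha.trans hab) hφ p hp), fun z hz => ⟨⟨?_, ?_⟩, ?_⟩⟩
  · have h1 : a ^ 2 < ‖z‖ ^ 2 := by
      rw [hz]
      nlinarith
    exact lt_of_pow_lt_pow_left₀ 2 (norm_nonneg z) h1
  · have h1 : ‖z‖ ^ 2 < b ^ 2 := by
      rw [hz]
      nlinarith
    exact lt_of_pow_lt_pow_left₀ 2 (ha.trans hab).le h1
  · exact not_strictlyPositive ha hab hφ hz

end Pool.Agent.Results.MP_8d5978_gt.NotStrictlyPositive
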